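import Mathlib
import Pool.Agent.Helper713.FibV

set_option autoImplicit false

open MeasureTheory

namespace Pool.Agent.Results.MP_1775a6_pr.FiberQ2

/-- The line graph on the integers: `m` and `n` are adjacent iff they differ by one. -/
def zLine : SimpleGraph ℤ := SimpleGraph.fromRel (fun m n : ℤ => n = m + 1)

/-- The subgraph of `H` formed by the open edges of `H`. Its connected components are the
clusters. -/
def openGraph {W : Type} (H : SimpleGraph W) (ω : Sym2 W → Bool) : SimpleGraph W :=
  SimpleGraph.fromEdgeSet {e : Sym2 W | e ∈ H.edgeSet ∧ ω e = true}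

/-- The law of a family of independent Bernoulli(`p`) bits indexed by `E`. -/
noncomputable def bernLaw (E : Type) (p : NNReal) (hp : p ≤ 1) : Measure (E → Bool) :=
  Measure.infinitePi (fun _ : E => (PMF.bernoulli p hp).toMeasure)

/-- The critical probability of Bernoulli bond percolation on `H`: the infimum of the `p` in
`[0, 1]` for which there is an infinite cluster with positive probability. -/
noncomputable def pcrit {W : Type} (H : SimpleGraph W) : NNReal :=
  sInf {p : NNReal | ∃ hp : p ≤ 1,
    0 < bernLaw (Sym2 W) p hp {ω | ∃ C : (openGraph H ω).ConnectedComponent, C.supp.Infinite}}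

/-- There are an infinite, connected, locally finite, countable graph `G` with `p_c(G) = 1` and a
`p` in `(0, 1)` such that, with positive probability, Bernoulli(`p`) bond percolation on `G × ℤ`
has an infinite cluster whose intersection with every fiber `{v} × ℤ` is finite. -/
theorem result :
    ∃ (V : Type) (G : SimpleGraph V), Countable V ∧ Infinite V ∧ G.Connected ∧
      (∀ v, (G.neighborSet v).Finite) ∧ pcrit G = 1 ∧
      ∃ (p : NNReal) (hp : p ≤ 1), 0 < p ∧ p < 1 ∧
        ∃ A : Set (Sym2 (V × ℤ) → Bool), MeasurableSet A ∧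
          0 < bernLaw (Sym2 (V × ℤ)) p hp A ∧
          ∀ ω ∈ A, ∃ C : (openGraph (SimpleGraph.boxProd G zLine) ω).ConnectedComponent,
            C.supp.Infinite ∧ ∀ v : V, {n : ℤ | (v, n) ∈ C.supp}.Finite := by
  refine ⟨Helper713.Fib.VT, Helper713.Fib.GT, inferInstance, inferInstance,
    Helper713.Fib.GT_connected, Helper713.Fib.GT_locFin, Helper713.Fib.pcrit_GT,
    Helper713.Fib.pp, Helper713.Fib.pp_le, ?_, ?_, Helper713.Fib.AV, Helper713.Fib.AV_meas,
    Helper713.Fib.AV_prob, ?_⟩
  · unfold Helper713.Fib.pp
    positivity
  · unfold Helper713.Fib.pp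
    rw [← NNReal.coe_lt_coe]
    push_cast
    norm_num
  · intro ω hω
    exact Helper713.Fib.AV_cluster hω

end Pool.Agent.Results.MP_1775a6_pr.FiberQ2
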